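import Pool.Agent.H469R2.NK.Final

/-!
# Erdős's lower-bound conjecture: `n_k > k^d` for every fixed `d`

`IsAdm k n` says that `n ≥ 2k` and that `(n-1)(n-2)⋯(n-k)` is divisible by no prime `p` with
`k < p < 2k`; `nk k` is the least such `n`.
-/

namespace Pool.Agent.Results.MP_9698ab_nt.SuperPolynomial

open Filter

/-- `n ≥ 2k` and no prime `p` with `k < p < 2k` divides `(n-1)(n-2)⋯(n-k)`. -/
def IsAdm (k n : ℕ) : Prop :=
  2 * k ≤ n ∧ ∀ p : ℕ, p.Prime → k < p → p < 2 * k → ¬ p ∣ ∏ i ∈ Finset.Icc 1 k, (n - i)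

/-- the least admissible `n` -/
noncomputable def nk (k : ℕ) : ℕ := sInf {n | IsAdm k n}

theorem adm_nonempty (k : ℕ) : {n | IsAdm k n}.Nonempty := by
  set P := ∏ p ∈ (Finset.range (2 * k)).filter Nat.Prime, p with hP
  have hP1 : 1 ≤ P := by
    rw [hP]
    exact Finset.prod_pos fun (p : ℕ) hp => Nat.Prime.pos (Finset.mem_filter.mp hp).2
  refine ⟨2 * k * P, ?_, ?_⟩
  · exact Nat.le_mul_of_pos_right _ hP1
  · intro p hp hkp hpk hdvd
    rw [Prime.dvd_finsetProd_iff hp.prime] at hdvd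
    obtain ⟨i, hi, hdi⟩ := hdvd
    rw [Finset.mem_Icc] at hi
    have hpP : p ∣ P := Finset.dvd_prod_of_mem _ (by
      rw [Finset.mem_filter, Finset.mem_range]; exact ⟨hpk, hp⟩)
    have h1 : p ∣ 2 * k * P := dvd_mul_of_dvd_right hpP _
    have h2 : i ≤ 2 * k * P := by
      have : 2 * k ≤ 2 * k * P := Nat.le_mul_of_pos_right _ hP1
      omega
    have h3 : p ∣ i := by
      have := (Nat.dvd_sub h1 hdi)
      rwa [Nat.sub_sub_self h2] at this
    have := Nat.le_of_dvd (by omega) h3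
    omega

/-- `nk k` is the least admissible integer, and for every real `d` one has `nk k > k ^ d` for all
sufficiently large `k`. -/
theorem result : (∀ k : ℕ, IsLeast {n | IsAdm k n} (nk k)) ∧
    ∀ d : ℝ, ∀ᶠ k : ℕ in atTop, (k : ℝ) ^ d < (nk k : ℝ) := by
  have hleast : ∀ k : ℕ, IsLeast {n | IsAdm k n} (nk k) := fun k =>
    ⟨Nat.sInf_mem (adm_nonempty k), fun n hn => Nat.sInf_le hn⟩
  refine ⟨hleast, fun d => ?_⟩
  filter_upwards [H469R2.NK.not_good (⌈d⌉₊ + 1) (by omega), eventually_ge_atTop 1] with k hk hk1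
  have h1 : k ^ (⌈d⌉₊ + 1) < nk k := by
    by_contra h
    rw [not_lt] at h
    exact hk (nk k) h (hleast k).1
  have hk' : (1 : ℝ) ≤ k := by exact_mod_cast hk1
  calc (k : ℝ) ^ d ≤ (k : ℝ) ^ ((⌈d⌉₊ + 1 : ℕ) : ℝ) := by
        apply Real.rpow_le_rpow_of_exponent_le hk'
        have := Nat.le_ceil d
        push_cast
        linarith
    _ = ((k ^ (⌈d⌉₊ + 1) : ℕ) : ℝ) := by rw [Real.rpow_natCast]; push_cast; rfl
    _ < nk k := by exact_mod_cast h1

end Pool.Agent.Results.MP_9698ab_nt.SuperPolynomial
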